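import Pool.Agent.R689.GM.Stm

/-! Piece GM-BASE (MP_514cbf_ag), by helper86. -/

namespace Pool.Agent.R689.GM

theorem base : BaseStmt := by
  intro A _ f hf q hq h
  have hs : (Set.Iio 1 : Set ℕ) = {0} := by
    ext x
    simp
  have hq' : q ∈ Algebra.adjoin A ({MvPolynomial.X 0} : Set (MvPolynomial ℕ A)) := by
    have := hq
    unfold supp at this
    rw [MvPolynomial.supported_eq_adjoin_X, hs, Set.image_singleton] at this
    exact this
  rw [Algebra.adjoin_singleton_eq_range_aeval] at hq'
  obtain ⟨u, rfl⟩ := hq'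
  have h0 : ev f (MvPolynomial.X 0) = (Polynomial.X : Polynomial A) := by
    simp [ev, hf]
  have h1 : ev f (Polynomial.aeval (MvPolynomial.X 0 : MvPolynomial ℕ A) u) = u := by
    rw [← Polynomial.aeval_algHom_apply, h0, Polynomial.aeval_X_left_apply]
  have hu : u = 0 := by
    rw [← h1]
    exact h
  rw [hu]
  exact map_zero _

end Pool.Agent.R689.GM
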