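import Pool.Agent.R689.GM.Stm

open scoped Classical

namespace Pool.Agent.R689.GM

theorem div_ev_map {A B : Type} [CommRing A] [CommRing B] (φ : A →+* B) (f : ℕ → A)
    (q : MvPolynomial ℕ A) :
    ev (fun i => φ (f i)) (MvPolynomial.map φ q) = Polynomial.map φ (ev f q) := by
  induction q using MvPolynomial.induction_on with
  | C r =>
    have h1 : ev f (MvPolynomial.C r) = Polynomial.C r := by
      simp [ev]
    have h2 : ev (fun i => φ (f i)) (MvPolynomial.C (φ r)) = Polynomial.C (φ r) := by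
      simp [ev]
    rw [MvPolynomial.map_C, h1, h2, Polynomial.map_C]
  | add p q hp hq => rw [map_add, map_add, map_add, Polynomial.map_add, hp, hq]
  | mul_X p i hp =>
    rw [map_mul, map_mul, map_mul, Polynomial.map_mul, hp, MvPolynomial.map_X]
    congr 1
    simp [ev]

theorem div_FF_map {A B : Type} [CommRing A] [CommRing B] (φ : A →+* B) (al be : ℕ → A)
    (al' be' : ℕ → B) (h1 : ∀ s, al' s = φ (al s)) (h2 : ∀ s, be' s = φ (be s)) (h i : ℕ) :
    FF al' be' h i = φ (FF al be h i) := by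
  unfold FF
  rw [map_mul, map_prod, map_prod]
  simp only [h1, h2]

theorem div_g1 {A : Type} [CommRing A] (Y Z : A) (b c : ℕ → A) (m i : ℕ) (hi : i < m) :
    MvPolynomial.C (c i * Z) * MvPolynomial.X (i + 1) -
      MvPolynomial.C (Y - b i * Z) * MvPolynomial.X i ∈ J2 Y Z b c m :=
  Ideal.subset_span (Or.inl ⟨i, hi, rfl⟩)

theorem div_g2 {A : Type} [CommRing A] (Y Z : A) (b c : ℕ → A) (m i j : ℕ) (hij : i < j)
    (hj : j < m) :
    MvPolynomial.C (c i) * MvPolynomial.X (i + 1) * MvPolynomial.X j -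
        MvPolynomial.C (c j) * MvPolynomial.X (j + 1) * MvPolynomial.X i +
        MvPolynomial.C (b i - b j) * MvPolynomial.X i * MvPolynomial.X j ∈ J2 Y Z b c m :=
  Ideal.subset_span (Or.inr ⟨i, j, hij, hj, rfl⟩)

theorem div_J2_map {A B : Type} [CommRing A] [CommRing B] (φ : A →+* B) (Y Z : A)
    (b c : ℕ → A) (m : ℕ) :
    J2 (φ Y) (φ Z) (fun s => φ (b s)) (fun s => φ (c s)) m ≤
      Ideal.map (MvPolynomial.map φ) (J2 Y Z b c m) := by
  have k1 : ∀ i < m, MvPolynomial.C (φ (c i) * φ Z) * MvPolynomial.X (i + 1) -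
      MvPolynomial.C (φ Y - φ (b i) * φ Z) * MvPolynomial.X i ∈
      Ideal.map (MvPolynomial.map φ) (J2 Y Z b c m) := by
    intro i hi
    have := Ideal.mem_map_of_mem (MvPolynomial.map (σ := ℕ) φ) (div_g1 Y Z b c m i hi)
    have e : MvPolynomial.map (σ := ℕ) φ (MvPolynomial.C (c i * Z) * MvPolynomial.X (i + 1) -
        MvPolynomial.C (Y - b i * Z) * MvPolynomial.X i) =
        MvPolynomial.C (φ (c i) * φ Z) * MvPolynomial.X (i + 1) -
        MvPolynomial.C (φ Y - φ (b i) * φ Z) * MvPolynomial.X i := by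
      simp only [map_sub, map_mul, MvPolynomial.map_C, MvPolynomial.map_X]
    exact e ▸ this
  have k2 : ∀ i j, i < j → j < m → MvPolynomial.C (φ (c i)) * MvPolynomial.X (i + 1) *
      MvPolynomial.X j - MvPolynomial.C (φ (c j)) * MvPolynomial.X (j + 1) * MvPolynomial.X i +
        MvPolynomial.C (φ (b i) - φ (b j)) * MvPolynomial.X i * MvPolynomial.X j ∈
      Ideal.map (MvPolynomial.map φ) (J2 Y Z b c m) := by
    intro i j hij hj
    have := Ideal.mem_map_of_mem (MvPolynomial.map (σ := ℕ) φ) (div_g2 Y Z b c m i j hij hj)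
    have e : MvPolynomial.map (σ := ℕ) φ (MvPolynomial.C (c i) * MvPolynomial.X (i + 1) *
        MvPolynomial.X j - MvPolynomial.C (c j) * MvPolynomial.X (j + 1) * MvPolynomial.X i +
        MvPolynomial.C (b i - b j) * MvPolynomial.X i * MvPolynomial.X j) =
        MvPolynomial.C (φ (c i)) * MvPolynomial.X (i + 1) *
        MvPolynomial.X j - MvPolynomial.C (φ (c j)) * MvPolynomial.X (j + 1) * MvPolynomial.X i +
        MvPolynomial.C (φ (b i) - φ (b j)) * MvPolynomial.X i * MvPolynomial.X j := by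
      simp only [map_sub, map_add, map_mul, MvPolynomial.map_C, MvPolynomial.map_X]
    exact e ▸ this
  refine Ideal.span_le.2 ?_
  rintro p (⟨i, hi, rfl⟩ | ⟨i, j, hij, hj, rfl⟩)
  · exact k1 i hi
  · exact k2 i j hij hj

theorem div_aux (hL : LowStmt) {A B : Type} [CommRing A] [CommRing B] (φ : A →+* B)
    (hsurj : Function.Surjective φ) (U Y Z : A) (a b : ℕ → A) (h : ℕ) (α : A)
    (hα : α = U - a h * Z) (hφ0 : ∀ x, φ x = 0 ↔ α ∣ x)
    (hu : ∀ i < h, IsUnit (a h - a i)) (hZ : ∀ x : A, α ∣ Z * x → α ∣ x)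
    (hY : ∀ x : A, (∃ u v, Y * x = α * u + Z * v) → ∃ u v, x = α * u + Z * v)
    (q : MvPolynomial ℕ A) (hq : q ∈ supp A (h + 1))
    (hdvd : Polynomial.C α ∣ ev (FF (fun s => U - a s * Z) (fun s => Y - b s * Z) h) q) :
    ∃ x ∈ J2 Y Z b (fun s => a h - a s) h, MvPolynomial.map φ (q - x) = 0 := by
  have hα0 : φ α = 0 := (hφ0 α).2 dvd_rfl
  have hU : φ U = φ (a h) * φ Z := by
    have h0 : φ (U - a h * Z) = 0 := by rw [← hα]; exact hα0
    rw [φ.map_sub, φ.map_mul] at h0
    exact sub_eq_zero.1 h0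
  have hqb : MvPolynomial.map φ q ∈ supp B (h + 1) := by
    have h1 := (MvPolynomial.mem_supported).1 hq
    refine (MvPolynomial.mem_supported).2 ?_
    exact fun x hx => h1 (MvPolynomial.vars_map q φ hx)
  have hev : ev (FF (fun s => φ (a h - a s) * φ Z) (fun s => φ Y - φ (b s) * φ Z) h)
      (MvPolynomial.map φ q) = 0 := by
    have e1 : FF (fun s => φ (a h - a s) * φ Z) (fun s => φ Y - φ (b s) * φ Z) h =
        fun i => φ (FF (fun s => U - a s * Z) (fun s => Y - b s * Z) h i) := by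
      funext i
      apply div_FF_map
      · intro s; rw [φ.map_sub, φ.map_sub, φ.map_mul, hU]; ring
      · intro s; rw [φ.map_sub, φ.map_mul]
    rw [e1, div_ev_map]
    obtain ⟨w, hw⟩ := hdvd
    rw [hw, Polynomial.map_mul, Polynomial.map_C, hα0, Polynomial.C_0, zero_mul]
  have hmem := hL B (φ Y) (φ Z) (fun s => φ (b s)) (fun s => φ (a h - a s)) h
    (fun i hi => (hu i hi).map φ)
    (by
      intro x hx
      obtain ⟨x, rfl⟩ := hsurj x
      rw [← φ.map_mul] at hx
      exact (hφ0 x).2 (hZ x ((hφ0 _).1 hx)))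
    (by
      intro x hx
      obtain ⟨x, rfl⟩ := hsurj x
      obtain ⟨w, hw⟩ := hx
      obtain ⟨w, rfl⟩ := hsurj w
      have h1 : φ (Y * x - Z * w) = 0 := by rw [φ.map_sub, φ.map_mul, φ.map_mul, hw, sub_self]
      obtain ⟨u, hu'⟩ := (hφ0 _).1 h1
      obtain ⟨u1, v1, h2⟩ := hY x ⟨u, w, by rw [← hu']; ring⟩
      refine ⟨φ v1, ?_⟩
      rw [h2, φ.map_add, φ.map_mul, φ.map_mul, hα0, zero_mul, zero_add])
    h le_rfl (MvPolynomial.map φ q) hqb hev
  have hmem2 := div_J2_map φ Y Z b (fun s => a h - a s) h hmem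
  obtain ⟨x, hx, hxq⟩ := (Ideal.mem_map_iff_of_surjective (MvPolynomial.map φ)
    (MvPolynomial.map_surjective φ hsurj)).1 hmem2
  exact ⟨x, hx, by rw [map_sub, hxq, sub_self]⟩

theorem div (hL : LowStmt) : DivStmt := by
  intro A _ U Y Z a b h hu hZ hY q hq hdvd
  obtain ⟨x, hx, hker⟩ := div_aux hL (Ideal.Quotient.mk (Ideal.span {U - a h * Z}))
    Ideal.Quotient.mk_surjective U Y Z a b h (U - a h * Z) rfl
    (fun x => by rw [Ideal.Quotient.eq_zero_iff_mem, Ideal.mem_span_singleton])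
    hu hZ hY q hq hdvd
  have hk : q - x ∈ RingHom.ker (MvPolynomial.map (σ := ℕ)
      (Ideal.Quotient.mk (Ideal.span {U - a h * Z}))) := (RingHom.mem_ker).2 hker
  rw [MvPolynomial.ker_map, Ideal.mk_ker, Ideal.map_span, Set.image_singleton] at hk
  have hqx : q = x + (q - x) := by ring
  rw [hqx]
  exact Ideal.add_mem _ (Ideal.mem_sup_left hx) (Ideal.mem_sup_right hk)

end Pool.Agent.R689.GM
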