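import Pool.Agent.R689.GM.Stm

/-! Piece ELIM: elimination of the last variable. -/

open scoped Classical

namespace Pool.Agent.R689.GM

namespace Elim

open MvPolynomial

variable {A : Type} [CommRing A]

theorem pow_cancel {γ : A} (h : ∀ x : A, γ * x = 0 → x = 0) : ∀ (n : ℕ) (x : A),
    γ ^ n * x = 0 → x = 0
  | 0, x, hx => by simpa using hx
  | n + 1, x, hx => by
    rw [pow_succ, mul_assoc] at hx
    exact h x (pow_cancel h n _ hx)

theorem ev_X (f : ℕ → A) (i : ℕ) : ev f (X i) = Polynomial.C (f i) * Polynomial.X := by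
  simp [ev]

theorem ev_comp {m : ℕ} {f g : ℕ → A} {γ : A} (h : ∀ i < m, g i = γ * f i)
    {q : MvPolynomial ℕ A} (hq : q ∈ supp A m) :
    ev g q = (ev f q).comp (Polynomial.C γ * Polynomial.X) := by
  have hq' : q ∈ Algebra.adjoin A (X '' Set.Iio m : Set (MvPolynomial ℕ A)) := hq
  induction hq' using Algebra.adjoin_induction with
  | mem x hx =>
    obtain ⟨i, hi, rfl⟩ := hx
    rw [ev_X, ev_X, h i hi, Polynomial.mul_comp, Polynomial.C_comp, Polynomial.X_comp,
      Polynomial.C_mul]
    ring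
  | algebraMap r =>
    rw [AlgHom.commutes, AlgHom.commutes, Polynomial.algebraMap_eq, Polynomial.C_comp]
  | add x y hx hy ihx ihy => rw [map_add, map_add, Polynomial.add_comp, ihx hx, ihy hy]
  | mul x y hx hy ihx ihy => rw [map_mul, map_mul, Polynomial.mul_comp, ihx hx, ihy hy]

theorem exists_poly {m : ℕ} {P : MvPolynomial ℕ A} (hP : P ∈ supp A (m + 1)) :
    ∃ p : Polynomial (supp A m), Polynomial.aeval (X m : MvPolynomial ℕ A) p = P := by
  have hP' : P ∈ Algebra.adjoin A (X '' Set.Iio (m + 1) : Set (MvPolynomial ℕ A)) := hP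
  induction hP' using Algebra.adjoin_induction with
  | mem x hx =>
    obtain ⟨i, hi, rfl⟩ := hx
    rcases Nat.lt_succ_iff_lt_or_eq.1 hi with h | h
    · refine ⟨Polynomial.C ⟨X i, Algebra.subset_adjoin ⟨i, h, rfl⟩⟩, ?_⟩
      rw [Polynomial.aeval_C]
      rfl
    · subst h
      exact ⟨Polynomial.X, Polynomial.aeval_X _⟩
  | algebraMap r =>
    refine ⟨Polynomial.C (algebraMap A (supp A m) r), ?_⟩
    rw [Polynomial.aeval_C]
    rfl
  | add x y hx hy ihx ihy =>
    obtain ⟨p, rfl⟩ := ihx hx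
    obtain ⟨q, rfl⟩ := ihy hy
    exact ⟨p + q, map_add _ _ _⟩
  | mul x y hx hy ihx ihy =>
    obtain ⟨p, rfl⟩ := ihx hx
    obtain ⟨q, rfl⟩ := ihy hy
    exact ⟨p * q, map_mul _ _ _⟩

theorem dvd_top {m : ℕ} {f g : ℕ → A} {γ : A} (h1 : ∀ x : A, γ * x = 0 → x = 0)
    (h2 : ∀ (x : A) (E : ℕ), γ ∣ g m ^ E * x → γ ∣ x) (h3 : ∀ i < m, g i = γ * f i) (E : ℕ)
    (p : Polynomial (supp A m)) (hd : p.natDegree ≤ E + 1)
    (h0 : ev g (Polynomial.aeval (X m : MvPolynomial ℕ A) p) = 0) :
    Polynomial.C γ ∣ ev f (p.coeff (E + 1) : MvPolynomial ℕ A) := by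
  rw [Polynomial.C_dvd_iff_dvd_coeff]
  intro j
  rw [Polynomial.aeval_eq_sum_range' (n := E + 2) (by omega), map_sum] at h0
  have hterm : ∀ i ∈ Finset.range (E + 2),
      (ev g (p.coeff i • (X m : MvPolynomial ℕ A) ^ i)).coeff (j + (E + 1)) =
      γ ^ (j + (E + 1) - i) * ((ev f (p.coeff i : MvPolynomial ℕ A)).coeff (j + (E + 1) - i) *
        g m ^ i) := by
    intro i hi
    rw [Finset.mem_range] at hi
    rw [Subalgebra.smul_def, smul_eq_mul, map_mul, map_pow, ev_X, ev_comp h3 (p.coeff i).2,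
      mul_pow, ← Polynomial.C_pow, ← mul_assoc, Polynomial.coeff_mul_X_pow', if_pos (by omega),
      Polynomial.coeff_mul_C, Polynomial.comp_C_mul_X_coeff]
    ring
  have hc := congrArg (fun F : Polynomial A => F.coeff (j + (E + 1))) h0
  simp only [Polynomial.finsetSum_coeff, Polynomial.coeff_zero] at hc
  rw [Finset.sum_congr rfl hterm, Finset.sum_range_succ] at hc
  have hs : ∀ i ∈ Finset.range (E + 1),
      γ ^ (j + (E + 1) - i) * ((ev f (p.coeff i : MvPolynomial ℕ A)).coeff (j + (E + 1) - i) *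
        g m ^ i) = γ ^ j * (γ * (γ ^ (E - i) *
          ((ev f (p.coeff i : MvPolynomial ℕ A)).coeff (j + (E + 1) - i) * g m ^ i))) := by
    intro i hi
    rw [Finset.mem_range] at hi
    have e : j + (E + 1) - i = j + 1 + (E - i) := by omega
    rw [e, pow_add, pow_succ]
    ring
  rw [Finset.sum_congr rfl hs, ← Finset.mul_sum, Nat.add_sub_cancel, ← mul_add] at hc
  have hc' := pow_cancel h1 j _ hc
  refine h2 _ (E + 1) ?_
  rw [← Finset.mul_sum] at hc'
  refine ⟨-(∑ i ∈ Finset.range (E + 1), γ ^ (E - i) *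
    ((ev f (p.coeff i : MvPolynomial ℕ A)).coeff (j + (E + 1) - i) * g m ^ i)), ?_⟩
  linear_combination hc'

end Elim

open Elim in
theorem elim : ElimStmt := by
  intro A _ m f g γ J h1 h2 h3 h4 h5 h6
  have key : ∀ (E : ℕ) (p : Polynomial (supp A m)), p.natDegree ≤ E →
      ev g (Polynomial.aeval (MvPolynomial.X m : MvPolynomial ℕ A) p) = 0 →
      Polynomial.aeval (MvPolynomial.X m : MvPolynomial ℕ A) p ∈ J := by
    intro E
    induction E with
    | zero =>
      intro p hp h0
      rw [Polynomial.eq_C_of_natDegree_le_zero hp, Polynomial.aeval_C] at h0 ⊢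
      change ev g (p.coeff 0 : MvPolynomial ℕ A) = 0 at h0
      change (p.coeff 0 : MvPolynomial ℕ A) ∈ J
      refine h5 _ (p.coeff 0).2 ?_
      rw [ev_comp h3 (p.coeff 0).2] at h0
      ext n
      have hn := congrArg (fun F : Polynomial A => F.coeff n) h0
      simp only [Polynomial.comp_C_mul_X_coeff, Polynomial.coeff_zero] at hn
      rw [Polynomial.coeff_zero]
      exact pow_cancel h1 n _ (by rw [mul_comm]; exact hn)
    | succ E ih =>
      intro p hp h0
      obtain ⟨r, hr, hrJ⟩ := h6 _ (p.coeff (E + 1)).2 (dvd_top h1 h2 h3 E p hp h0)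
      obtain ⟨p', hp'⟩ : ∃ p' : Polynomial (supp A m),
        p' = p - Polynomial.monomial (E + 1) (p.coeff (E + 1)) +
          Polynomial.monomial E ⟨r, hr⟩ := ⟨_, rfl⟩
      have hdeg : p'.natDegree ≤ E := by
        rw [Polynomial.natDegree_le_iff_coeff_eq_zero]
        intro N hN
        rw [hp', Polynomial.coeff_add, Polynomial.coeff_sub, Polynomial.coeff_monomial,
          Polynomial.coeff_monomial, if_neg (show ¬ E = N by omega)]
        by_cases hN' : E + 1 = N
        · subst hN'
          simp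
        · rw [if_neg hN', Polynomial.coeff_eq_zero_of_natDegree_lt (by omega)]
          simp
      have hval : Polynomial.aeval (MvPolynomial.X m : MvPolynomial ℕ A) p =
          Polynomial.aeval (MvPolynomial.X m : MvPolynomial ℕ A) p' +
          MvPolynomial.X m ^ E * (MvPolynomial.X m * (p.coeff (E + 1) : MvPolynomial ℕ A) - r) := by
        have hsub : p' + Polynomial.monomial (E + 1) (p.coeff (E + 1)) =
            p + Polynomial.monomial E ⟨r, hr⟩ := by rw [hp']; ring
        have hq := congrArg (Polynomial.aeval (MvPolynomial.X m : MvPolynomial ℕ A)) hsub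
        rw [map_add, map_add, Polynomial.aeval_monomial, Polynomial.aeval_monomial] at hq
        change Polynomial.aeval (MvPolynomial.X m : MvPolynomial ℕ A) p' +
          (p.coeff (E + 1) : MvPolynomial ℕ A) * MvPolynomial.X m ^ (E + 1) =
          Polynomial.aeval (MvPolynomial.X m : MvPolynomial ℕ A) p +
          r * MvPolynomial.X m ^ E at hq
        linear_combination -hq
      have hJ : MvPolynomial.X m ^ E *
          (MvPolynomial.X m * (p.coeff (E + 1) : MvPolynomial ℕ A) - r) ∈ J :=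
        J.mul_mem_left _ hrJ
      rw [hval]
      refine J.add_mem (ih p' hdeg ?_) hJ
      have := h4 _ hJ
      rw [hval, map_add, this, add_zero] at h0
      exact h0
  intro P hP h0
  obtain ⟨p, rfl⟩ := exists_poly hP
  exact key _ p le_rfl h0

end Pool.Agent.R689.GM
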