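import Pool.Agent.R689.GM.Stm

set_option linter.all false

/-! Piece FIN of project GM (MP_514cbf_ag): transfer to `Fin (h+1)` variables. -/

open scoped Classical

namespace Pool.Agent.R689.GM

namespace FinAux

open MvPolynomial

variable {A : Type} [CommRing A]

/-- Kill the variables with index `> h`. -/
noncomputable def tau (A : Type) [CommRing A] (h : ℕ) :
    MvPolynomial ℕ A →ₐ[A] MvPolynomial (Fin (h + 1)) A :=
  MvPolynomial.aeval (fun i => if hi : i < h + 1 then
    (MvPolynomial.X ⟨i, hi⟩ : MvPolynomial (Fin (h + 1)) A) else 0)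

lemma tau_X {h i : ℕ} (hi : i < h + 1) :
    tau A h (MvPolynomial.X i) = (MvPolynomial.X ⟨i, hi⟩ : MvPolynomial (Fin (h + 1)) A) := by
  simp only [tau, MvPolynomial.aeval_X]
  rw [dif_pos hi]

lemma tau_C {h : ℕ} (a : A) :
    tau A h (MvPolynomial.C a) = (MvPolynomial.C a : MvPolynomial (Fin (h + 1)) A) := by
  simp only [tau, MvPolynomial.aeval_C, MvPolynomial.algebraMap_eq]

lemma tau_rename {h : ℕ} (q : MvPolynomial (Fin (h + 1)) A) :
    tau A h (MvPolynomial.rename (fun i : Fin (h + 1) => (i : ℕ)) q) = q := by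
  unfold tau
  rw [MvPolynomial.aeval_rename]
  have : ((fun i : ℕ => if hi : i < h + 1 then
      (MvPolynomial.X ⟨i, hi⟩ : MvPolynomial (Fin (h + 1)) A) else 0) ∘
      (fun i : Fin (h + 1) => (i : ℕ))) = MvPolynomial.X := by
    funext i
    simp only [Function.comp_apply]
    rw [dif_pos i.2]
  rw [this]
  simp

/-- The evaluation on `Fin (h+1)` variables. -/
noncomputable def evF (h : ℕ) (f : ℕ → A) : MvPolynomial (Fin (h + 1)) A →ₐ[A] Polynomial A :=
  MvPolynomial.aeval (fun i : Fin (h + 1) => Polynomial.C (f i) * (Polynomial.X : Polynomial A))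

lemma evF_X {h i : ℕ} (f : ℕ → A) (hi : i < h + 1) :
    evF h f (tau A h (MvPolynomial.X i)) = ev f (MvPolynomial.X i) := by
  rw [tau_X hi]
  simp only [evF, ev, MvPolynomial.aeval_X]

lemma evF_C {h : ℕ} (f : ℕ → A) (a : A) :
    evF h f (tau A h (MvPolynomial.C a)) = ev f (MvPolynomial.C a) := by
  rw [tau_C]
  simp only [evF, ev, MvPolynomial.aeval_C]

lemma ev_rename {h : ℕ} (f : ℕ → A) (q : MvPolynomial (Fin (h + 1)) A) :
    ev f (MvPolynomial.rename (fun i : Fin (h + 1) => (i : ℕ)) q) = evF h f q := by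
  unfold ev evF
  rw [MvPolynomial.aeval_rename]
  rfl

lemma lin_eq {h i : ℕ} (f : ℕ → A) (U Y Z : A) (a b : ℕ → A) (hi : i < h) :
    evF h f (tau A h (lin U Y Z a b i)) = ev f (lin U Y Z a b i) := by
  unfold lin
  simp only [map_sub (tau A h), map_mul (tau A h), map_sub (evF h f), map_mul (evF h f),
    map_sub (ev f), map_mul (ev f), evF_C, evF_X f (show i < h + 1 by omega),
    evF_X f (show i + 1 < h + 1 by omega)]

lemma minor3_eq {h i j k : ℕ} (f : ℕ → A) (a b : ℕ → A) (hij : i < j) (hjk : j < k)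
    (hk : k < h) :
    evF h f (tau A h (minor3 a b i j k)) = ev f (minor3 a b i j k) := by
  unfold minor3
  simp only [map_sub (tau A h), map_mul (tau A h), map_add (tau A h), map_sub (evF h f),
    map_mul (evF h f), map_add (evF h f),
    map_sub (ev f), map_mul (ev f), map_add (ev f), evF_C, evF_X f (show i < h + 1 by omega),
    evF_X f (show i + 1 < h + 1 by omega), evF_X f (show j < h + 1 by omega),
    evF_X f (show j + 1 < h + 1 by omega), evF_X f (show k < h + 1 by omega),
    evF_X f (show k + 1 < h + 1 by omega)]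

lemma lin_hom {h i : ℕ} (U Y Z : A) (a b : ℕ → A) (hi : i < h) :
    (tau A h (lin U Y Z a b i)).IsHomogeneous 1 := by
  unfold lin
  simp only [map_sub (tau A h), map_mul (tau A h), tau_C, tau_X (A := A) (show i < h + 1 by omega),
    tau_X (A := A) (show i + 1 < h + 1 by omega)]
  have e : ∀ (c : A) (s : Fin (h + 1)),
      (MvPolynomial.C c * MvPolynomial.X s : MvPolynomial (Fin (h + 1)) A).IsHomogeneous 1 := by
    intro c s
    have := (MvPolynomial.isHomogeneous_C (Fin (h + 1)) c).mul (MvPolynomial.isHomogeneous_X A s)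
    simpa using this
  exact (e _ _).sub (e _ _)

lemma minor3_hom {h i j k : ℕ} (a b : ℕ → A) (hij : i < j) (hjk : j < k) (hk : k < h) :
    (tau A h (minor3 a b i j k)).IsHomogeneous 3 := by
  unfold minor3
  simp only [map_sub (tau A h), map_mul (tau A h), map_add (tau A h), tau_C,
    tau_X (A := A) (show i < h + 1 by omega), tau_X (A := A) (show i + 1 < h + 1 by omega),
    tau_X (A := A) (show j < h + 1 by omega), tau_X (A := A) (show j + 1 < h + 1 by omega),
    tau_X (A := A) (show k < h + 1 by omega), tau_X (A := A) (show k + 1 < h + 1 by omega)]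
  have e : ∀ (c : A) (s : Fin (h + 1)),
      (MvPolynomial.C c * MvPolynomial.X s : MvPolynomial (Fin (h + 1)) A).IsHomogeneous 1 := by
    intro c s
    have := (MvPolynomial.isHomogeneous_C (Fin (h + 1)) c).mul (MvPolynomial.isHomogeneous_X A s)
    simpa using this
  have x : ∀ (s : Fin (h + 1)),
      (MvPolynomial.X s : MvPolynomial (Fin (h + 1)) A).IsHomogeneous 1 := fun s =>
    MvPolynomial.isHomogeneous_X A s
  have w : ∀ (c d : A) (s t : Fin (h + 1)),
      (MvPolynomial.C c * MvPolynomial.X s - MvPolynomial.C d * MvPolynomial.X t :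
        MvPolynomial (Fin (h + 1)) A).IsHomogeneous 1 := fun c d s t => (e c s).sub (e d t)
  have m2 : ∀ {p q : MvPolynomial (Fin (h + 1)) A}, p.IsHomogeneous 1 → q.IsHomogeneous 1 →
      (p * q).IsHomogeneous 2 := fun hp hq => by simpa using hp.mul hq
  have m3 : ∀ {p q : MvPolynomial (Fin (h + 1)) A}, p.IsHomogeneous 1 → q.IsHomogeneous 2 →
      (p * q).IsHomogeneous 3 := fun hp hq => by simpa using hp.mul hq
  refine MvPolynomial.IsHomogeneous.add (MvPolynomial.IsHomogeneous.sub ?_ ?_) ?_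
  · exact m3 (x _) ((m2 (x _) (w _ _ _ _)).sub (m2 (x _) (w _ _ _ _)))
  · exact m3 (x _) ((m2 (x _) (w _ _ _ _)).sub (m2 (x _) (w _ _ _ _)))
  · exact m3 (w _ _ _ _) ((m2 (x _) (x _)).sub (m2 (x _) (x _)))

lemma rename_mem {h : ℕ} (q : MvPolynomial (Fin (h + 1)) A) :
    MvPolynomial.rename (fun i : Fin (h + 1) => (i : ℕ)) q ∈ supp A (h + 1) := by
  induction q using MvPolynomial.induction_on with
  | C c =>
    rw [MvPolynomial.rename_C]
    exact (supp A (h + 1)).algebraMap_mem c
  | add p1 p2 h1 h2 =>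
    rw [map_add]
    exact (supp A (h + 1)).add_mem h1 h2
  | mul_X p1 i h1 =>
    rw [map_mul, MvPolynomial.rename_X]
    refine (supp A (h + 1)).mul_mem h1 ?_
    exact Algebra.subset_adjoin ⟨(i : ℕ), i.2, rfl⟩

end FinAux

open FinAux in
theorem fin : FinStmt := by
  intro A _ U Y Z a b h hker hsupp q hq
  set F : ℕ → A := FF (fun s => U - a s * Z) (fun s => Y - b s * Z) h with hF
  have hq' : ev F (MvPolynomial.rename (fun i : Fin (h + 1) => (i : ℕ)) q) = 0 := by
    rw [ev_rename]; exact hq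
  have hmem : MvPolynomial.rename (fun i : Fin (h + 1) => (i : ℕ)) q ∈ supp A (h + 1) :=
    rename_mem q
  have hJ := hsupp _ hmem hq'
  have hle : J3 U Y Z a b h ≤ Ideal.comap (tau A h) (Ideal.span {p : MvPolynomial (Fin (h + 1)) A |
      MvPolynomial.aeval (fun i : Fin (h + 1) => Polynomial.C (F i) *
        (Polynomial.X : Polynomial A)) p = 0 ∧ ∃ n ≤ 3, p.IsHomogeneous n}) := by
    unfold J3
    rw [Ideal.span_le]
    rintro p (⟨i, hi, rfl⟩ | ⟨i, j, k, hij, hjk, hk, rfl⟩)
    · refine Ideal.subset_span ⟨?_, 1, by norm_num, lin_hom U Y Z a b hi⟩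
      have h1 := hker (lin U Y Z a b i) (Ideal.subset_span (Or.inl ⟨i, hi, rfl⟩))
      rw [← lin_eq _ U Y Z a b hi] at h1
      exact h1
    · refine Ideal.subset_span ⟨?_, 3, le_refl _, minor3_hom a b hij hjk hk⟩
      have h1 := hker (minor3 a b i j k)
        (Ideal.subset_span (Or.inr ⟨i, j, k, hij, hjk, hk, rfl⟩))
      rw [← minor3_eq _ a b hij hjk hk] at h1
      exact h1
  have h2 := hle hJ
  rw [Ideal.mem_comap, tau_rename] at h2
  exact h2

end Pool.Agent.R689.GM
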