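import Pool.Agent.R689.GM.Stm

/-! KER (owner helper595) -/

namespace Pool.Agent.R689.GM

lemma ker_rel {A : Type} [CommRing A] (al be : ℕ → A) (h i : ℕ) (hi : i < h) :
    al i * FF al be h (i + 1) = be i * FF al be h i := by
  unfold FF
  rw [Finset.prod_range_succ, Finset.prod_eq_prod_Ico_succ_bot hi al]
  ring

theorem ker : KerStmt := by
  intro A _ U Y Z a b h hZ p hp
  obtain ⟨F, hF⟩ : ∃ F : ℕ → A, F = FF (fun s => U - a s * Z) (fun s => Y - b s * Z) h := ⟨_, rfl⟩
  have hrel : ∀ i < h, (U - a i * Z) * F (i + 1) = (Y - b i * Z) * F i := by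
    intro i hi
    rw [hF]
    exact ker_rel (fun s => U - a s * Z) (fun s => Y - b s * Z) h i hi
  rw [← hF]
  have hle : J3 U Y Z a b h ≤ RingHom.ker (ev F) := by
    unfold J3
    rw [Ideal.span_le]
    rintro q (⟨i, hi, rfl⟩ | ⟨i, j, k, hij, hjk, hk, rfl⟩)
    · rw [SetLike.mem_coe, RingHom.mem_ker]
      have e : ev F (lin U Y Z a b i) =
          Polynomial.C ((U - a i * Z) * F (i + 1) - (Y - b i * Z) * F i) * Polynomial.X := by
        simp only [ev, lin, map_sub, map_mul, MvPolynomial.aeval_X, MvPolynomial.algHom_C,
          Polynomial.algebraMap_eq]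
        ring
      rw [e, hrel i hi, sub_self, map_zero, zero_mul]
    · rw [SetLike.mem_coe, RingHom.mem_ker]
      have hi := hrel i (by omega)
      have hj := hrel j (by omega)
      have hk' := hrel k hk
      have hdet : F (k + 1) * (F i * (b j * F j - a j * F (j + 1)) -
          F j * (b i * F i - a i * F (i + 1))) -
          F k * (F (i + 1) * (b j * F j - a j * F (j + 1)) -
          F (j + 1) * (b i * F i - a i * F (i + 1))) +
          (b k * F k - a k * F (k + 1)) * (F (i + 1) * F j - F (j + 1) * F i) = 0 := by
        apply hZ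
        linear_combination (F (k + 1) * F i - F k * F (i + 1)) * hj +
          (F k * F (j + 1) - F (k + 1) * F j) * hi + (F (i + 1) * F j - F (j + 1) * F i) * hk'
      have e : ev F (minor3 a b i j k) =
          Polynomial.C (F (k + 1) * (F i * (b j * F j - a j * F (j + 1)) -
          F j * (b i * F i - a i * F (i + 1))) -
          F k * (F (i + 1) * (b j * F j - a j * F (j + 1)) -
          F (j + 1) * (b i * F i - a i * F (i + 1))) +
          (b k * F k - a k * F (k + 1)) * (F (i + 1) * F j - F (j + 1) * F i)) *
            Polynomial.X ^ 3 := by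
        simp only [ev, minor3, map_sub, map_mul, map_add, MvPolynomial.aeval_X,
          MvPolynomial.algHom_C, Polynomial.algebraMap_eq]
        ring
      rw [e, hdet, map_zero, zero_mul]
  exact hle hp

end Pool.Agent.R689.GM
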