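import Pool.Agent.R689.GM.Stm

/-! Piece GM-LOW of project GM (MP_514cbf_ag). -/

open scoped Classical

namespace Pool.Agent.R689.GM

namespace LowP

theorem cancel_prod {A : Type} [CommRing A] (Y Z : A) (b : ℕ → A)
    (hY : ∀ x : A, Z ∣ Y * x → Z ∣ x) (n : ℕ) (x : A)
    (h : Z ∣ (∏ s ∈ Finset.range n, (Y - b s * Z)) * x) : Z ∣ x := by
  induction n with
  | zero => simpa using h
  | succ n ih =>
    apply ih
    apply hY
    rw [Finset.prod_range_succ] at h
    have h2 : Y * ((∏ s ∈ Finset.range n, (Y - b s * Z)) * x) =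
        (∏ s ∈ Finset.range n, (Y - b s * Z)) * (Y - b n * Z) * x +
        Z * (b n * ((∏ s ∈ Finset.range n, (Y - b s * Z)) * x)) := by ring
    rw [h2]
    exact dvd_add h (dvd_mul_right _ _)

theorem cancel_pow {A : Type} [CommRing A] (D Z : A) (hD : ∀ x : A, Z ∣ D * x → Z ∣ x)
    (E : ℕ) (x : A) (h : Z ∣ D ^ E * x) : Z ∣ x := by
  induction E with
  | zero => simpa using h
  | succ E ih =>
    apply ih
    apply hD
    have h2 : D * (D ^ E * x) = D ^ (E + 1) * x := by ring
    rw [h2]
    exact h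

theorem J2_mono {A : Type} [CommRing A] (Y Z : A) (b c : ℕ → A) (m : ℕ) :
    J2 Y Z b c m ≤ J2 Y Z b c (m + 1) := by
  unfold J2
  apply Ideal.span_mono
  rintro p (⟨i, hi, rfl⟩ | ⟨i, j, hij, hj, rfl⟩)
  · exact Or.inl ⟨i, by omega, rfl⟩
  · exact Or.inr ⟨i, j, hij, by omega, rfl⟩

end LowP

open LowP in
theorem low (hE : ElimStmt) (hB : BaseStmt) (hK : LowKerStmt) (hH : LowH1Stmt) : LowStmt := by
  intro A _ Y Z b c h hc hZ hY m
  induction m with
  | zero =>
    intro _ q hq hev
    have := hB A _ (by simp [FF]) q hq hev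
    rw [this]
    exact Submodule.zero_mem _
  | succ m ih =>
    intro hm
    have hcm : IsUnit (c m) := hc m (by omega)
    refine hE A (m + 1) (FF (fun s => c s * Z) (fun s => Y - b s * Z) m)
      (FF (fun s => c s * Z) (fun s => Y - b s * Z) (m + 1)) (c m * Z) (J2 Y Z b c (m + 1))
      ?_ ?_ ?_ ?_ ?_ ?_
    · intro x hx
      apply hZ
      rw [mul_assoc] at hx
      exact (hcm.mul_right_eq_zero).1 hx
    · intro x E hx
      rw [hcm.mul_left_dvd] at hx ⊢
      refine cancel_pow _ Z ?_ E x hx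
      intro y hy
      have e : FF (fun s => c s * Z) (fun s => Y - b s * Z) (m + 1) (m + 1) =
          ∏ s ∈ Finset.range (m + 1), (Y - b s * Z) := by
        simp [FF]
      rw [e] at hy
      exact cancel_prod Y Z b hY (m + 1) y hy
    · intro i hi
      unfold FF
      rw [Finset.prod_Ico_succ_top (by omega)]
      ring
    · exact hK A Y Z b c (m + 1) hZ
    · intro q hq hev
      exact J2_mono Y Z b c m (ih (by omega) q hq hev)
    · intro q hq hdvd
      refine hH A Y Z b c m hcm hY q hq (dvd_trans ?_ hdvd)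
      rw [Polynomial.C_mul]
      exact dvd_mul_left _ _

end Pool.Agent.R689.GM
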