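import Pool.Agent.R689.GM.Stm

/-!
Piece LH1 (helper31): the multiplication step on the second level.
-/

set_option autoImplicit false

open scoped Classical

namespace Pool.Agent.R689.GM

namespace LH1

variable {A : Type} [CommRing A]

/-- The polynomials that can be multiplied by the new variable. -/
def KK (J : Ideal (MvPolynomial ℕ A)) (m : ℕ) : Set (MvPolynomial ℕ A) :=
  {q | ∃ r ∈ supp A (m + 1), MvPolynomial.X (m + 1) * q - r ∈ J}

theorem KK_zero (J : Ideal (MvPolynomial ℕ A)) (m : ℕ) : (0 : MvPolynomial ℕ A) ∈ KK J m :=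
  ⟨0, Subalgebra.zero_mem _, by simp⟩

theorem KK_add {J : Ideal (MvPolynomial ℕ A)} {m : ℕ} {p q : MvPolynomial ℕ A}
    (hp : p ∈ KK J m) (hq : q ∈ KK J m) : p + q ∈ KK J m := by
  obtain ⟨r, hr, h1⟩ := hp
  obtain ⟨s, hs, h2⟩ := hq
  refine ⟨r + s, Subalgebra.add_mem _ hr hs, ?_⟩
  have h3 := J.add_mem h1 h2
  have e : MvPolynomial.X (m + 1) * (p + q) - (r + s) =
      MvPolynomial.X (m + 1) * p - r + (MvPolynomial.X (m + 1) * q - s) := by ring
  rw [e]
  exact h3

theorem KK_mul {J : Ideal (MvPolynomial ℕ A)} {m : ℕ} {g q : MvPolynomial ℕ A}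
    (hg : g ∈ supp A (m + 1)) (hq : q ∈ KK J m) : g * q ∈ KK J m := by
  obtain ⟨r, hr, h1⟩ := hq
  refine ⟨g * r, Subalgebra.mul_mem _ hg hr, ?_⟩
  have e : MvPolynomial.X (m + 1) * (g * q) - g * r =
      g * (MvPolynomial.X (m + 1) * q - r) := by ring
  rw [e]
  exact J.mul_mem_left _ h1

theorem X_mem {m i : ℕ} (h : i ≤ m) : (MvPolynomial.X i : MvPolynomial ℕ A) ∈ supp A (m + 1) :=
  Algebra.subset_adjoin ⟨i, Nat.lt_succ_of_le h, rfl⟩

theorem C_mem {m : ℕ} (a : A) : (MvPolynomial.C a : MvPolynomial ℕ A) ∈ supp A (m + 1) :=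
  Subalgebra.algebraMap_mem _ a

theorem aeval_mem {m : ℕ} (u : Polynomial A) :
    Polynomial.aeval (MvPolynomial.X m : MvPolynomial ℕ A) u ∈ supp A (m + 1) := by
  have h := Polynomial.aeval_mem_adjoin_singleton A (MvPolynomial.X m : MvPolynomial ℕ A) (p := u)
  refine (Algebra.adjoin_le ?_ : Algebra.adjoin A {(MvPolynomial.X m : MvPolynomial ℕ A)} ≤
    supp A (m + 1)) h
  rw [Set.singleton_subset_iff]
  exact X_mem le_rfl

variable {Y Z : A} {b c : ℕ → A} {m : ℕ}

theorem KK_C (hc : IsUnit (c m)) :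
    (MvPolynomial.C Z : MvPolynomial ℕ A) ∈ KK (J2 Y Z b c (m + 1)) m := by
  obtain ⟨d, hd⟩ := hc.exists_left_inv
  refine ⟨MvPolynomial.C d * (MvPolynomial.C (Y - b m * Z) * MvPolynomial.X m),
    Subalgebra.mul_mem _ (C_mem d) (Subalgebra.mul_mem _ (C_mem _) (X_mem le_rfl)), ?_⟩
  have h1 : MvPolynomial.C (c m * Z) * MvPolynomial.X (m + 1) -
      MvPolynomial.C (Y - b m * Z) * MvPolynomial.X m ∈ J2 Y Z b c (m + 1) :=
    Ideal.subset_span (Or.inl ⟨m, Nat.lt_succ_self m, rfl⟩)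
  have h2 := (J2 Y Z b c (m + 1)).mul_mem_left (MvPolynomial.C d) h1
  have e : (MvPolynomial.C d : MvPolynomial ℕ A) * MvPolynomial.C (c m) = 1 := by
    rw [← MvPolynomial.C_mul, hd, MvPolynomial.C_1]
  have e2 : MvPolynomial.X (m + 1) * MvPolynomial.C Z -
      MvPolynomial.C d * (MvPolynomial.C (Y - b m * Z) * MvPolynomial.X m) =
      MvPolynomial.C d * (MvPolynomial.C (c m * Z) * MvPolynomial.X (m + 1) -
      MvPolynomial.C (Y - b m * Z) * MvPolynomial.X m) := by
    rw [MvPolynomial.C_mul]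
    linear_combination (-(MvPolynomial.C Z * MvPolynomial.X (m + 1))) * e
  rw [e2]
  exact h2

theorem KK_X (hc : IsUnit (c m)) {i : ℕ} (hi : i < m) :
    (MvPolynomial.X i : MvPolynomial ℕ A) ∈ KK (J2 Y Z b c (m + 1)) m := by
  obtain ⟨d, hd⟩ := hc.exists_left_inv
  refine ⟨MvPolynomial.C d * (MvPolynomial.C (c i) * MvPolynomial.X (i + 1) * MvPolynomial.X m +
    MvPolynomial.C (b i - b m) * MvPolynomial.X i * MvPolynomial.X m),
    Subalgebra.mul_mem _ (C_mem d) (Subalgebra.add_mem _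
      (Subalgebra.mul_mem _ (Subalgebra.mul_mem _ (C_mem _) (X_mem hi)) (X_mem le_rfl))
      (Subalgebra.mul_mem _ (Subalgebra.mul_mem _ (C_mem _) (X_mem hi.le)) (X_mem le_rfl))), ?_⟩
  have h1 : MvPolynomial.C (c i) * MvPolynomial.X (i + 1) * MvPolynomial.X m -
      MvPolynomial.C (c m) * MvPolynomial.X (m + 1) * MvPolynomial.X i +
      MvPolynomial.C (b i - b m) * MvPolynomial.X i * MvPolynomial.X m ∈ J2 Y Z b c (m + 1) :=
    Ideal.subset_span (Or.inr ⟨i, m, hi, Nat.lt_succ_self m, rfl⟩)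
  have h2 := (J2 Y Z b c (m + 1)).mul_mem_left (-(MvPolynomial.C d)) h1
  have e : (MvPolynomial.C d : MvPolynomial ℕ A) * MvPolynomial.C (c m) = 1 := by
    rw [← MvPolynomial.C_mul, hd, MvPolynomial.C_1]
  have e2 : MvPolynomial.X (m + 1) * MvPolynomial.X i -
      MvPolynomial.C d * (MvPolynomial.C (c i) * MvPolynomial.X (i + 1) * MvPolynomial.X m +
        MvPolynomial.C (b i - b m) * MvPolynomial.X i * MvPolynomial.X m) =
      -(MvPolynomial.C d) * (MvPolynomial.C (c i) * MvPolynomial.X (i + 1) * MvPolynomial.X m -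
      MvPolynomial.C (c m) * MvPolynomial.X (m + 1) * MvPolynomial.X i +
      MvPolynomial.C (b i - b m) * MvPolynomial.X i * MvPolynomial.X m) := by
    linear_combination (-(MvPolynomial.X (m + 1) * MvPolynomial.X i)) * e
  rw [e2]
  exact h2

theorem dvd_FF {i : ℕ} (hi : i < m) :
    Z ∣ FF (fun s => c s * Z) (fun s => Y - b s * Z) m i := by
  unfold FF
  refine Dvd.dvd.mul_left ?_ _
  refine Dvd.dvd.trans (Dvd.intro_left (c i) rfl) (Finset.dvd_prod_of_mem (fun s => c s * Z) ?_)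
  rw [Finset.mem_Ico]
  exact ⟨le_rfl, hi⟩

theorem cancel_prod (hZ : ∀ x : A, Z ∣ Y * x → Z ∣ x) (n : ℕ) : ∀ x : A,
    Z ∣ (∏ s ∈ Finset.range n, (Y - b s * Z)) * x → Z ∣ x := by
  induction n with
  | zero =>
    intro x h
    simpa using h
  | succ n ih =>
    intro x h
    rw [Finset.prod_range_succ, mul_assoc] at h
    have h1 := ih _ h
    refine hZ x ?_
    have e : Y * x = (Y - b n * Z) * x + Z * (b n * x) := by ring
    rw [e]
    exact dvd_add h1 (Dvd.intro _ rfl)

theorem cancel_pow {δ : A} (h : ∀ x : A, Z ∣ δ * x → Z ∣ x) (n : ℕ) : ∀ x : A,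
    Z ∣ δ ^ n * x → Z ∣ x := by
  induction n with
  | zero =>
    intro x h
    simpa using h
  | succ n ih =>
    intro x h1
    rw [pow_succ', mul_assoc] at h1
    exact ih _ (h _ h1)

/-- the set of polynomials whose difference from a polynomial in the last variable is good -/
theorem decomp (hc : IsUnit (c m)) {q : MvPolynomial ℕ A} (hq : q ∈ supp A (m + 1)) :
    ∃ u : Polynomial A,
      q - Polynomial.aeval (MvPolynomial.X m : MvPolynomial ℕ A) u ∈ KK (J2 Y Z b c (m + 1)) m ∧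
      Polynomial.C Z ∣ ev (FF (fun s => c s * Z) (fun s => Y - b s * Z) m)
        (q - Polynomial.aeval (MvPolynomial.X m : MvPolynomial ℕ A) u) := by
  change q ∈ Algebra.adjoin A (MvPolynomial.X '' Set.Iio (m + 1)) at hq
  induction hq using Algebra.adjoin_induction with
  | mem x hx =>
    obtain ⟨i, hi, rfl⟩ := hx
    rcases Nat.lt_succ_iff_lt_or_eq.1 hi with h | h
    · refine ⟨0, ?_, ?_⟩
      · rw [map_zero, sub_zero]
        exact KK_X hc h
      · rw [map_zero, sub_zero]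
        unfold ev
        rw [MvPolynomial.aeval_X]
        refine Dvd.dvd.mul_right ?_ _
        exact map_dvd Polynomial.C (dvd_FF h)
    · refine ⟨Polynomial.X, ?_, ?_⟩
      · rw [Polynomial.aeval_X, h, sub_self]
        exact KK_zero _ _
      · rw [Polynomial.aeval_X, h, sub_self, map_zero]
        exact dvd_zero _
  | algebraMap r =>
    refine ⟨Polynomial.C r, ?_, ?_⟩
    · rw [Polynomial.aeval_C, sub_self]
      exact KK_zero _ _
    · rw [Polynomial.aeval_C, sub_self, map_zero]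
      exact dvd_zero _
  | add x y _ _ hx hy =>
    obtain ⟨u, hu1, hu2⟩ := hx
    obtain ⟨v, hv1, hv2⟩ := hy
    have e : x + y - Polynomial.aeval (MvPolynomial.X m : MvPolynomial ℕ A) (u + v) =
        (x - Polynomial.aeval (MvPolynomial.X m : MvPolynomial ℕ A) u) +
        (y - Polynomial.aeval (MvPolynomial.X m : MvPolynomial ℕ A) v) := by
      rw [map_add]
      ring
    refine ⟨u + v, ?_, ?_⟩
    · rw [e]
      exact KK_add hu1 hv1
    · rw [e, map_add]
      exact dvd_add hu2 hv2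
  | mul x y hxm _ hx hy =>
    obtain ⟨u, hu1, hu2⟩ := hx
    obtain ⟨v, hv1, hv2⟩ := hy
    have e : x * y - Polynomial.aeval (MvPolynomial.X m : MvPolynomial ℕ A) (u * v) =
        x * (y - Polynomial.aeval (MvPolynomial.X m : MvPolynomial ℕ A) v) +
        Polynomial.aeval (MvPolynomial.X m : MvPolynomial ℕ A) v *
          (x - Polynomial.aeval (MvPolynomial.X m : MvPolynomial ℕ A) u) := by
      rw [map_mul]
      ring
    refine ⟨u * v, ?_, ?_⟩
    · rw [e]
      exact KK_add (KK_mul hxm hv1) (KK_mul (aeval_mem v) hu1)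
    · rw [e, map_add, map_mul, map_mul]
      exact dvd_add (Dvd.dvd.mul_left hv2 _) (Dvd.dvd.mul_left hu2 _)

end LH1

open LH1 in
theorem lowH1 : LowH1Stmt := by
  intro A _ Y Z b c m hc hZ q hq hdvd
  obtain ⟨u, hu1, hu2⟩ := decomp (Y := Y) (Z := Z) (b := b) hc hq
  have h1 : Polynomial.C Z ∣ ev (FF (fun s => c s * Z) (fun s => Y - b s * Z) m)
      (Polynomial.aeval (MvPolynomial.X m : MvPolynomial ℕ A) u) := by
    have := dvd_sub hdvd hu2
    rwa [← map_sub, sub_sub_cancel] at this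
  set δ : A := FF (fun s => c s * Z) (fun s => Y - b s * Z) m m with hδ
  have h2 : ev (FF (fun s => c s * Z) (fun s => Y - b s * Z) m)
      (Polynomial.aeval (MvPolynomial.X m : MvPolynomial ℕ A) u) =
      u.comp (Polynomial.C δ * Polynomial.X) := by
    rw [← Polynomial.aeval_algHom_apply]
    unfold ev
    rw [MvPolynomial.aeval_X]
    rfl
  have hδ' : δ = ∏ s ∈ Finset.range m, (Y - b s * Z) := by
    rw [hδ]
    unfold FF
    simp
  rw [h2, Polynomial.C_dvd_iff_dvd_coeff] at h1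
  have h3 : Polynomial.C Z ∣ u := by
    rw [Polynomial.C_dvd_iff_dvd_coeff]
    intro n
    have h4 := h1 n
    rw [Polynomial.comp_C_mul_X_coeff, mul_comm] at h4
    refine cancel_pow (δ := δ) ?_ n _ h4
    rw [hδ']
    exact cancel_prod hZ m
  obtain ⟨v, rfl⟩ := h3
  have h5 : Polynomial.aeval (MvPolynomial.X m : MvPolynomial ℕ A) (Polynomial.C Z * v) ∈
      KK (J2 Y Z b c (m + 1)) m := by
    rw [map_mul, Polynomial.aeval_C, mul_comm]
    exact KK_mul (aeval_mem v) (KK_C hc)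
  have h6 := KK_add hu1 h5
  rw [sub_add_cancel] at h6
  exact h6

end Pool.Agent.R689.GM
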