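import Pool.Agent.R689.GM.Stm

/-! `J2` lies in the kernel (helper209). -/

namespace Pool.Agent.R689.GM

theorem lk_FF_rel {A : Type} [CommRing A] (al be : ℕ → A) (h i : ℕ) (hi : i < h) :
    al i * FF al be h (i + 1) = be i * FF al be h i := by
  unfold FF
  rw [Finset.prod_range_succ, Finset.prod_eq_prod_Ico_succ_bot hi]
  ring

theorem lk_ev_C {A : Type} [CommRing A] (f : ℕ → A) (x : A) :
    ev f (MvPolynomial.C x) = Polynomial.C x := by
  unfold ev
  rw [MvPolynomial.aeval_C]
  rfl

theorem lk_ev_X {A : Type} [CommRing A] (f : ℕ → A) (i : ℕ) :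
    ev f (MvPolynomial.X i) = Polynomial.C (f i) * Polynomial.X := by
  unfold ev
  rw [MvPolynomial.aeval_X]

theorem lowKer : LowKerStmt := by
  intro A _ Y Z b c h hZ p hp
  generalize hG : FF (fun s => c s * Z) (fun s => Y - b s * Z) h = G
  have hrel : ∀ i < h, c i * Z * G (i + 1) = (Y - b i * Z) * G i := by
    intro i hi
    rw [← hG]
    exact lk_FF_rel (fun s => c s * Z) (fun s => Y - b s * Z) h i hi
  have hle : J2 Y Z b c h ≤ RingHom.ker (ev G) := by
    refine Ideal.span_le.2 ?_
    rintro q (⟨i, hi, rfl⟩ | ⟨i, j, hij, hj, rfl⟩)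
    · change ev G _ = 0
      have h1 : ev G (MvPolynomial.C (c i * Z) * MvPolynomial.X (i + 1) -
          MvPolynomial.C (Y - b i * Z) * MvPolynomial.X i) =
          Polynomial.C (c i * Z * G (i + 1) - (Y - b i * Z) * G i) * Polynomial.X := by
        simp only [map_sub, map_mul, lk_ev_C, lk_ev_X]
        ring
      rw [h1, hrel i hi, sub_self, Polynomial.C_0, zero_mul]
    · change ev G _ = 0
      have h0 : c i * G (i + 1) * G j - c j * G (j + 1) * G i + (b i - b j) * G i * G j = 0 := by
        apply hZ
        linear_combination G j * hrel i (hij.trans hj) - G i * hrel j hj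
      have h1 : ev G (MvPolynomial.C (c i) * MvPolynomial.X (i + 1) * MvPolynomial.X j -
          MvPolynomial.C (c j) * MvPolynomial.X (j + 1) * MvPolynomial.X i +
          MvPolynomial.C (b i - b j) * MvPolynomial.X i * MvPolynomial.X j) =
          Polynomial.C (c i * G (i + 1) * G j - c j * G (j + 1) * G i +
            (b i - b j) * G i * G j) * Polynomial.X ^ 2 := by
        simp only [map_sub, map_mul, map_add, lk_ev_C, lk_ev_X]
        ring
      rw [h1, h0, Polynomial.C_0, zero_mul]
  exact hle hp

end Pool.Agent.R689.GM
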