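import Pool.Agent.R689.GM.Stm

/-! Assembly of the main theorem for general rings (MP_514cbf_ag). -/

open scoped Classical

namespace Pool.Agent.R689.GM

theorem J3_mono {A : Type} [CommRing A] (U Y Z : A) (a b : ℕ → A) (h : ℕ) :
    J3 U Y Z a b h ≤ J3 U Y Z a b (h + 1) := by
  unfold J3
  apply Ideal.span_mono
  rintro p (⟨i, hi, hp⟩ | ⟨i, j, k, hij, hjk, hk, hp⟩)
  · exact Or.inl ⟨i, by omega, hp⟩
  · exact Or.inr ⟨i, j, k, hij, hjk, by omega, hp⟩

theorem dvd_cancel {A : Type} [CommRing A] (γ : A) (be : ℕ → A) (n : ℕ)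
    (hb : ∀ s < n, ∀ x : A, γ ∣ be s * x → γ ∣ x) :
    ∀ x : A, γ ∣ (∏ s ∈ Finset.range n, be s) * x → γ ∣ x := by
  induction n with
  | zero =>
    intro x hx
    simpa using hx
  | succ n ih =>
    intro x hx
    rw [Finset.prod_range_succ, mul_assoc] at hx
    exact hb n (by omega) x (ih (fun s hs => hb s (by omega)) _ hx)

theorem dvd_cancel_pow {A : Type} [CommRing A] (γ δ : A) (hδ : ∀ x : A, γ ∣ δ * x → γ ∣ x)
    (E : ℕ) : ∀ x : A, γ ∣ δ ^ E * x → γ ∣ x := by
  induction E with
  | zero =>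
    intro x hx
    simpa using hx
  | succ n ih =>
    intro x hx
    rw [pow_succ, mul_assoc] at hx
    exact hδ x (ih _ hx)

theorem main (hE : ElimStmt) (hB : BaseStmt) (hK : KerStmt) (hD : DivStmt) (hS : StepStmt) :
    MainStmt := by
  intro A _ U Y Z a b H hu hZ hα hβ hαZ hY h
  induction h with
  | zero =>
    intro _ q hq hq0
    have h1 := hB A (FF (fun s => U - a s * Z) (fun s => Y - b s * Z) 0) (by simp [FF]) q hq hq0
    rw [h1]
    exact Ideal.zero_mem _
  | succ h ih =>
    intro hh q hq hq0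
    have hlt : h < H := by omega
    refine hE A (h + 1) (FF (fun s => U - a s * Z) (fun s => Y - b s * Z) h)
      (FF (fun s => U - a s * Z) (fun s => Y - b s * Z) (h + 1)) (U - a h * Z)
      (J3 U Y Z a b (h + 1)) (hα h hlt) ?_ ?_ (hK A U Y Z a b (h + 1) hZ) ?_ ?_ q hq hq0
    · intro x E hx
      refine dvd_cancel_pow _ _ ?_ E x hx
      intro y hy
      have h1 : FF (fun s => U - a s * Z) (fun s => Y - b s * Z) (h + 1) (h + 1) =
          ∏ s ∈ Finset.range (h + 1), (Y - b s * Z) := by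
        simp [FF]
      rw [h1] at hy
      exact dvd_cancel _ (fun s => Y - b s * Z) (h + 1)
        (fun s hs => hβ h hlt s (by omega)) y hy
    · intro i hi
      unfold FF
      rw [Finset.prod_Ico_succ_top (by omega)]
      ring
    · intro p hp hp0
      exact J3_mono U Y Z a b h (ih (by omega) p hp hp0)
    · intro p hp hdvd
      exact hS A U Y Z a b h p hp (hD A U Y Z a b h (fun i hi => hu i h hi hlt) (hαZ h hlt)
        (hY h hlt) p hp hdvd)

end Pool.Agent.R689.GM
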