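import Pool.Agent.R689.GM.Stm

/-! Project GM, piece RING (helper179): regularity facts in `k[z][y][x]` -/

namespace Pool.Agent.R689.GM

namespace RingAux

open Polynomial

lemma dvd_of_C_mul {R : Type} [CommRing R] [IsDomain R] {α p : R[X]} (hα : α.Monic) {d : R}
    (hd : d ≠ 0) (h : α ∣ C d * p) : α ∣ p := by
  rw [← Polynomial.modByMonic_eq_zero_iff_dvd hα] at h ⊢
  rw [← Polynomial.smul_eq_C_mul, Polynomial.smul_modByMonic] at h
  exact (smul_eq_zero.1 h).resolve_left hd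

lemma C_dvd_X_sq {R : Type} [CommRing R] {w : R} {p : R[X]} (h : C w ∣ X ^ 2 * p) : C w ∣ p := by
  rw [Polynomial.C_dvd_iff_dvd_coeff] at h ⊢
  intro i
  have := h (i + 2)
  rwa [Polynomial.coeff_X_pow_mul] at this

lemma CC_dvd {R : Type} [CommRing R] {w : R} {p : R[X][X]} (h : C (C w) ∣ C (X ^ 2) * p) :
    C (C w) ∣ p := by
  rw [Polynomial.C_dvd_iff_dvd_coeff] at h ⊢
  intro i
  have := h i
  rw [Polynomial.coeff_C_mul] at this
  exact C_dvd_X_sq this

end RingAux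

open Polynomial RingAux in
/-- RING -/
theorem ring' : RingStmt := by
  intro k _ a b
  have hα : px k ^ 2 - sc a * pz k ^ 2 = X ^ 2 - C (C (C a * X ^ 2)) := by
    simp [px, sc, pz]
  have hβ : py k ^ 2 - sc b * pz k ^ 2 = C (X ^ 2 - C (C b * X ^ 2)) := by
    simp [py, sc, pz]
  have hz : pz k ^ 2 = C (C (X ^ 2)) := by simp [pz]
  have hy : py k ^ 2 = C (X ^ 2) := by simp [py]
  have hm : (X ^ 2 - C (C (C a * X ^ 2)) : P3 k).Monic := monic_X_pow_sub_C _ two_ne_zero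
  have hm2 : (X ^ 2 - C (C b * X ^ 2) : Polynomial (Polynomial k)).Monic :=
    monic_X_pow_sub_C _ two_ne_zero
  have hz0 : (C (X ^ 2) : Polynomial (Polynomial k)) ≠ 0 := by
    rw [Ne, C_eq_zero]; exact pow_ne_zero 2 X_ne_zero
  refine ⟨?_, ?_, ?_, ?_, ?_⟩
  · intro x hx
    rw [hz] at hx
    exact (mul_eq_zero.1 hx).resolve_left (by rw [C_eq_zero]; exact hz0)
  · intro x hx
    rw [hα] at hx
    exact (mul_eq_zero.1 hx).resolve_left hm.ne_zero
  · intro x hx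
    rw [hα, hβ] at hx
    rw [hα]
    exact dvd_of_C_mul hm hm2.ne_zero hx
  · intro x hx
    rw [hα, hz] at hx
    rw [hα]
    exact dvd_of_C_mul hm hz0 hx
  · rintro x ⟨u, v, h⟩
    rw [hα, hz, hy] at h
    rw [hα, hz]
    set α : P3 k := X ^ 2 - C (C (C a * X ^ 2)) with hαd
    have h1 : (C (X ^ 2) * x) %ₘ α = (C (C (X ^ 2)) * v) %ₘ α := by
      rw [h, add_modByMonic, (modByMonic_eq_zero_iff_dvd hm).2 (dvd_mul_right α u), zero_add]
    rw [← smul_eq_C_mul, ← smul_eq_C_mul, smul_modByMonic, smul_modByMonic, smul_eq_C_mul,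
      smul_eq_C_mul] at h1
    have h2 : C (C (X ^ 2)) ∣ C (X ^ 2) * (x %ₘ α) := ⟨v %ₘ α, h1⟩
    obtain ⟨w, hw⟩ := CC_dvd h2
    refine ⟨x /ₘ α, w, ?_⟩
    rw [← hw]
    have h3 := modByMonic_add_div x α
    rw [add_comm] at h3
    exact h3.symm

end Pool.Agent.R689.GM
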