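import Pool.Agent.R689.GM.Stm

/-! Piece STEP of project GM (helper32). -/

open scoped Classical

namespace Pool.Agent.R689.GM

open MvPolynomial

theorem step_X_mem {A : Type} [CommRing A] {m i : ℕ} (h : i < m) :
    (X i : MvPolynomial ℕ A) ∈ supp A m :=
  Algebra.subset_adjoin ⟨i, h, rfl⟩

theorem step_C_mem {A : Type} [CommRing A] (m : ℕ) (a : A) :
    (C a : MvPolynomial ℕ A) ∈ supp A m :=
  (supp A m).algebraMap_mem a

/-- the retraction onto the polynomials in `T_0, …, T_h` -/
noncomputable def stepRho (A : Type) [CommRing A] (h : ℕ) :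
    MvPolynomial ℕ A →ₐ[A] MvPolynomial ℕ A :=
  aeval (fun i => if i ≤ h then X i else 0)

theorem stepRho_X {A : Type} [CommRing A] {h i : ℕ} (hi : i ≤ h) :
    stepRho A h (X i) = X i := by
  rw [stepRho, aeval_X, if_pos hi]

theorem stepRho_C {A : Type} [CommRing A] (h : ℕ) (a : A) : stepRho A h (C a) = C a := by
  rw [stepRho, aeval_C]
  rfl

theorem stepRho_eq {A : Type} [CommRing A] (h : ℕ) {q : MvPolynomial ℕ A}
    (hq : q ∈ supp A (h + 1)) : stepRho A h q = q := by
  have h1 : supp A (h + 1) ≤ AlgHom.equalizer (stepRho A h) (AlgHom.id A _) := by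
    apply AlgHom.adjoin_le_equalizer
    rintro _ ⟨i, hi, rfl⟩
    have hi' : i ≤ h := Nat.lt_succ_iff.1 hi
    rw [stepRho_X hi']
    rfl
  exact h1 hq

theorem stepRho_mem {A : Type} [CommRing A] (h : ℕ) (q : MvPolynomial ℕ A) :
    stepRho A h q ∈ supp A (h + 1) := by
  induction q using MvPolynomial.induction_on with
  | C a =>
    rw [stepRho_C]
    exact step_C_mem _ a
  | add p q hp hq =>
    rw [map_add]
    exact add_mem hp hq
  | mul_X p n hp =>
    rw [map_mul]
    refine mul_mem hp ?_
    rw [stepRho, aeval_X]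
    split_ifs with hn
    · exact step_X_mem (Nat.lt_succ_iff.2 hn)
    · exact zero_mem _

theorem step : StepStmt := by
  intro A _ U Y Z a b h q hq hmem
  -- the predicate
  have key : ∀ q ∈ J2 Y Z b (fun s => a h - a s) h ⊔ Ideal.span {C (U - a h * Z)},
      ∃ r ∈ supp A (h + 1), X (h + 1) * stepRho A h q - r ∈ J3 U Y Z a b (h + 1) := by
    have hlin : ∀ i < h + 1, lin U Y Z a b i ∈ J3 U Y Z a b (h + 1) := fun i hi =>
      Ideal.subset_span (Or.inl ⟨i, hi, rfl⟩)
    have hadd : ∀ x y : MvPolynomial ℕ A,
        (∃ r ∈ supp A (h + 1), X (h + 1) * stepRho A h x - r ∈ J3 U Y Z a b (h + 1)) →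
        (∃ r ∈ supp A (h + 1), X (h + 1) * stepRho A h y - r ∈ J3 U Y Z a b (h + 1)) →
        ∃ r ∈ supp A (h + 1), X (h + 1) * stepRho A h (x + y) - r ∈ J3 U Y Z a b (h + 1) := by
      rintro x y ⟨r, hr, h1⟩ ⟨r', hr', h2⟩
      refine ⟨r + r', add_mem hr hr', ?_⟩
      have h3 : X (h + 1) * stepRho A h (x + y) - (r + r') =
          (X (h + 1) * stepRho A h x - r) + (X (h + 1) * stepRho A h y - r') := by
        rw [map_add]
        ring
      rw [h3]
      exact Ideal.add_mem _ h1 h2
    have hmul : ∀ g x : MvPolynomial ℕ A,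
        (∃ r ∈ supp A (h + 1), X (h + 1) * stepRho A h x - r ∈ J3 U Y Z a b (h + 1)) →
        ∃ r ∈ supp A (h + 1), X (h + 1) * stepRho A h (g * x) - r ∈ J3 U Y Z a b (h + 1) := by
      rintro g x ⟨r, hr, h1⟩
      refine ⟨stepRho A h g * r, mul_mem (stepRho_mem h g) hr, ?_⟩
      have h3 : X (h + 1) * stepRho A h (g * x) - stepRho A h g * r =
          stepRho A h g * (X (h + 1) * stepRho A h x - r) := by
        rw [map_mul]
        ring
      rw [h3]
      exact Ideal.mul_mem_left _ _ h1
    intro q hq
    obtain ⟨q1, hq1, q2, hq2, rfl⟩ := Submodule.mem_sup.1 hq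
    apply hadd
    · clear hq hmem
      refine Submodule.span_induction
        (p := fun x _ => ∃ r ∈ supp A (h + 1),
          X (h + 1) * stepRho A h x - r ∈ J3 U Y Z a b (h + 1)) ?_ ?_ ?_ ?_ hq1
      · rintro x (⟨i, hi, rfl⟩ | ⟨i, j, hij, hjh, rfl⟩)
        · refine ⟨-(X (i + 1) * C (Y - b h * Z) * X h), ?_, ?_⟩
          · exact neg_mem (mul_mem (mul_mem (step_X_mem (by omega)) (step_C_mem _ _))
              (step_X_mem (by omega)))
          · have h3 : X (h + 1) * stepRho A h (C ((a h - a i) * Z) * X (i + 1) -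
                C (Y - b i * Z) * X i) - -(X (i + 1) * C (Y - b h * Z) * X h) =
                X (h + 1) * lin U Y Z a b i - X (i + 1) * lin U Y Z a b h := by
              simp only [map_sub, map_mul, stepRho_C, lin]
              rw [stepRho_X (show i + 1 ≤ h by omega), stepRho_X (show i ≤ h by omega)]
              ring
            rw [h3]
            exact Ideal.sub_mem _ (Ideal.mul_mem_left _ _ (hlin i (by omega)))
              (Ideal.mul_mem_left _ _ (hlin h (by omega)))
        · refine ⟨-(X h * (X (i + 1) * (C (b j) * X j - C (a j) * X (j + 1)) -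
            X (j + 1) * (C (b i) * X i - C (a i) * X (i + 1)))) +
            C (b h) * X h * (X (i + 1) * X j - X (j + 1) * X i), ?_, ?_⟩
          · have hX : ∀ n, n < h + 1 → (X n : MvPolynomial ℕ A) ∈ supp A (h + 1) :=
              fun n hn => step_X_mem hn
            have hC : ∀ c : A, (C c : MvPolynomial ℕ A) ∈ supp A (h + 1) :=
              fun c => step_C_mem _ c
            refine add_mem (neg_mem (mul_mem (hX h (by omega)) (sub_mem (mul_mem
              (hX (i + 1) (by omega)) (sub_mem (mul_mem (hC _) (hX j (by omega)))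
                (mul_mem (hC _) (hX (j + 1) (by omega))))) (mul_mem (hX (j + 1) (by omega))
                (sub_mem (mul_mem (hC _) (hX i (by omega))) (mul_mem (hC _)
                  (hX (i + 1) (by omega)))))))) (mul_mem (mul_mem (hC _) (hX h (by omega)))
                (sub_mem (mul_mem (hX (i + 1) (by omega)) (hX j (by omega)))
                  (mul_mem (hX (j + 1) (by omega)) (hX i (by omega)))))
          · have h3 : X (h + 1) * stepRho A h (C (a h - a i) * X (i + 1) * X j -
                C (a h - a j) * X (j + 1) * X i + C (b i - b j) * X i * X j) -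
                (-(X h * (X (i + 1) * (C (b j) * X j - C (a j) * X (j + 1)) -
                X (j + 1) * (C (b i) * X i - C (a i) * X (i + 1)))) +
                C (b h) * X h * (X (i + 1) * X j - X (j + 1) * X i)) =
                -minor3 a b i j h := by
              simp only [map_sub, map_mul, map_add, stepRho_C]
              rw [stepRho_X (show i + 1 ≤ h by omega), stepRho_X (show j ≤ h by omega),
                stepRho_X (show j + 1 ≤ h by omega), stepRho_X (show i ≤ h by omega), minor3]
              ring
            rw [h3]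
            exact (J3 U Y Z a b (h + 1)).neg_mem
              (Ideal.subset_span (Or.inr ⟨i, j, h, hij, hjh, by omega, rfl⟩))
      · refine ⟨0, zero_mem _, ?_⟩
        rw [map_zero, mul_zero, sub_zero]
        exact zero_mem _
      · intro x y _ _ hx hy
        exact hadd x y hx hy
      · intro g x _ hx
        exact hmul g x hx
    · obtain ⟨g, rfl⟩ := Ideal.mem_span_singleton'.1 hq2
      apply hmul
      refine ⟨C (Y - b h * Z) * X h, mul_mem (step_C_mem _ _) (step_X_mem (by omega)), ?_⟩
      have h3 : X (h + 1) * stepRho A h (C (U - a h * Z)) - C (Y - b h * Z) * X h =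
          lin U Y Z a b h := by
        rw [stepRho_C, lin]
        ring
      rw [h3]
      exact hlin h (by omega)
  obtain ⟨r, hr, h1⟩ := key q hmem
  rw [stepRho_eq h hq] at h1
  exact ⟨r, hr, h1⟩

end Pool.Agent.R689.GM
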