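import Mathlib

/-! Statements of the pieces of project GM (MP_514cbf_ag).  Variables `T_i` are `X i` in
`MvPolynomial ℕ A`; `supp m` is the subalgebra of the polynomials in `T_0, …, T_{m-1}`. -/

open scoped Classical

namespace Pool.Agent.R689.GM

/-- The polynomials in the variables `T_i`, `i < m`. -/
noncomputable abbrev supp (A : Type) [CommRing A] (m : ℕ) : Subalgebra A (MvPolynomial ℕ A) :=
  MvPolynomial.supported A (Set.Iio m)

/-- `F_i = β_0 ⋯ β_{i-1} α_i ⋯ α_{h-1}`. -/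
noncomputable def FF {A : Type} [CommRing A] (al be : ℕ → A) (h i : ℕ) : A :=
  (∏ s ∈ Finset.range i, be s) * ∏ s ∈ Finset.Ico i h, al s

/-- The evaluation `T_i ↦ f_i t`. -/
noncomputable def ev {A : Type} [CommRing A] (f : ℕ → A) :
    MvPolynomial ℕ A →ₐ[A] Polynomial A :=
  MvPolynomial.aeval (fun i => Polynomial.C (f i) * Polynomial.X)

/-- Elimination of the last variable. -/
def ElimStmt : Prop := ∀ (A : Type) [CommRing A] (m : ℕ) (f g : ℕ → A) (γ : A)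
  (J : Ideal (MvPolynomial ℕ A)),
  (∀ x : A, γ * x = 0 → x = 0) →
  (∀ (x : A) (E : ℕ), γ ∣ g m ^ E * x → γ ∣ x) →
  (∀ i < m, g i = γ * f i) →
  (∀ p ∈ J, ev g p = 0) →
  (∀ q ∈ supp A m, ev f q = 0 → q ∈ J) →
  (∀ q ∈ supp A m, Polynomial.C γ ∣ ev f q →
    ∃ r ∈ supp A m, MvPolynomial.X m * q - r ∈ J) →
  ∀ P ∈ supp A (m + 1), ev g P = 0 → P ∈ J

/-- The ideal of the second level: linear relations and `2`-minors. -/
noncomputable def J2 {A : Type} [CommRing A] (Y Z : A) (b c : ℕ → A) (m : ℕ) :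
    Ideal (MvPolynomial ℕ A) :=
  Ideal.span ({p | ∃ i < m, p = MvPolynomial.C (c i * Z) * MvPolynomial.X (i + 1) -
      MvPolynomial.C (Y - b i * Z) * MvPolynomial.X i} ∪
    {p | ∃ i j, i < j ∧ j < m ∧
      p = MvPolynomial.C (c i) * MvPolynomial.X (i + 1) * MvPolynomial.X j -
        MvPolynomial.C (c j) * MvPolynomial.X (j + 1) * MvPolynomial.X i +
        MvPolynomial.C (b i - b j) * MvPolynomial.X i * MvPolynomial.X j})

/-- Base case: one variable. -/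
def BaseStmt : Prop := ∀ (A : Type) [CommRing A] (f : ℕ → A), f 0 = 1 →
  ∀ q ∈ supp A 1, ev f q = 0 → q = 0

/-- `J2` lies in the kernel. -/
def LowKerStmt : Prop := ∀ (A : Type) [CommRing A] (Y Z : A) (b c : ℕ → A) (h : ℕ),
  (∀ x : A, Z * x = 0 → x = 0) →
  ∀ p ∈ J2 Y Z b c h, ev (FF (fun s => c s * Z) (fun s => Y - b s * Z) h) p = 0

/-- The multiplication step on the second level. -/
def LowH1Stmt : Prop := ∀ (A : Type) [CommRing A] (Y Z : A) (b c : ℕ → A) (m : ℕ),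
  IsUnit (c m) → (∀ x : A, Z ∣ Y * x → Z ∣ x) →
  ∀ q ∈ supp A (m + 1),
    Polynomial.C Z ∣ ev (FF (fun s => c s * Z) (fun s => Y - b s * Z) m) q →
    ∃ r ∈ supp A (m + 1), MvPolynomial.X (m + 1) * q - r ∈ J2 Y Z b c (m + 1)

/-- Second level (Rees ideal of the `m`-th power of `(Y, Z)`). -/
def LowStmt : Prop := ∀ (A : Type) [CommRing A] (Y Z : A) (b c : ℕ → A) (h : ℕ),
  (∀ i < h, IsUnit (c i)) → (∀ x : A, Z * x = 0 → x = 0) →
  (∀ x : A, Z ∣ Y * x → Z ∣ x) →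
  ∀ m ≤ h, ∀ q ∈ supp A (m + 1),
    ev (FF (fun s => c s * Z) (fun s => Y - b s * Z) m) q = 0 → q ∈ J2 Y Z b c m

/-- The ideal of the first level: linear relations and the `3`-minors of the matrix with rows
`(T_{s+1}, T_s, b_s T_s - a_s T_{s+1})`. -/
noncomputable def minor3 {A : Type} [CommRing A] (a b : ℕ → A) (i j k : ℕ) : MvPolynomial ℕ A :=
  MvPolynomial.X (k + 1) * (MvPolynomial.X i * (MvPolynomial.C (b j) * MvPolynomial.X j -
      MvPolynomial.C (a j) * MvPolynomial.X (j + 1)) -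
      MvPolynomial.X j * (MvPolynomial.C (b i) * MvPolynomial.X i -
      MvPolynomial.C (a i) * MvPolynomial.X (i + 1))) -
  MvPolynomial.X k * (MvPolynomial.X (i + 1) * (MvPolynomial.C (b j) * MvPolynomial.X j -
      MvPolynomial.C (a j) * MvPolynomial.X (j + 1)) -
      MvPolynomial.X (j + 1) * (MvPolynomial.C (b i) * MvPolynomial.X i -
      MvPolynomial.C (a i) * MvPolynomial.X (i + 1))) +
  (MvPolynomial.C (b k) * MvPolynomial.X k - MvPolynomial.C (a k) * MvPolynomial.X (k + 1)) *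
    (MvPolynomial.X (i + 1) * MvPolynomial.X j - MvPolynomial.X (j + 1) * MvPolynomial.X i)

noncomputable def lin {A : Type} [CommRing A] (U Y Z : A) (a b : ℕ → A) (i : ℕ) :
    MvPolynomial ℕ A :=
  MvPolynomial.C (U - a i * Z) * MvPolynomial.X (i + 1) -
    MvPolynomial.C (Y - b i * Z) * MvPolynomial.X i

noncomputable def J3 {A : Type} [CommRing A] (U Y Z : A) (a b : ℕ → A) (h : ℕ) :
    Ideal (MvPolynomial ℕ A) :=
  Ideal.span ({p | ∃ i < h, p = lin U Y Z a b i} ∪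
    {p | ∃ i j k, i < j ∧ j < k ∧ k < h ∧ p = minor3 a b i j k})

/-- `J3` lies in the kernel. -/
def KerStmt : Prop := ∀ (A : Type) [CommRing A] (U Y Z : A) (a b : ℕ → A) (h : ℕ),
  (∀ x : A, Z * x = 0 → x = 0) →
  ∀ p ∈ J3 U Y Z a b h, ev (FF (fun s => U - a s * Z) (fun s => Y - b s * Z) h) p = 0

/-- The division property (first level). -/
def DivStmt : Prop := ∀ (A : Type) [CommRing A] (U Y Z : A) (a b : ℕ → A) (h : ℕ),
  (∀ i < h, IsUnit (a h - a i)) →
  (∀ x : A, (U - a h * Z) ∣ Z * x → (U - a h * Z) ∣ x) →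
  (∀ x : A, (∃ u v, Y * x = (U - a h * Z) * u + Z * v) →
    ∃ u v, x = (U - a h * Z) * u + Z * v) →
  ∀ q ∈ supp A (h + 1),
    Polynomial.C (U - a h * Z) ∣ ev (FF (fun s => U - a s * Z) (fun s => Y - b s * Z) h) q →
    q ∈ J2 Y Z b (fun s => a h - a s) h ⊔ Ideal.span {MvPolynomial.C (U - a h * Z)}

/-- The step: elements of `J2` and of `(U - a_h Z)` can be multiplied into `J3 (h+1)`. -/
def StepStmt : Prop := ∀ (A : Type) [CommRing A] (U Y Z : A) (a b : ℕ → A) (h : ℕ),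
  ∀ q ∈ supp A (h + 1),
    q ∈ J2 Y Z b (fun s => a h - a s) h ⊔ Ideal.span {MvPolynomial.C (U - a h * Z)} →
    ∃ r ∈ supp A (h + 1), MvPolynomial.X (h + 1) * q - r ∈ J3 U Y Z a b (h + 1)

/-- Main theorem for general rings. -/
def MainStmt : Prop := ∀ (A : Type) [CommRing A] (U Y Z : A) (a b : ℕ → A) (H : ℕ),
  (∀ i j, i < j → j < H → IsUnit (a j - a i)) →
  (∀ x : A, Z * x = 0 → x = 0) →
  (∀ h < H, ∀ x : A, (U - a h * Z) * x = 0 → x = 0) →
  (∀ h < H, ∀ s ≤ h, ∀ x : A, (U - a h * Z) ∣ (Y - b s * Z) * x → (U - a h * Z) ∣ x) →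
  (∀ h < H, ∀ x : A, (U - a h * Z) ∣ Z * x → (U - a h * Z) ∣ x) →
  (∀ h < H, ∀ x : A, (∃ u v, Y * x = (U - a h * Z) * u + Z * v) →
    ∃ u v, x = (U - a h * Z) * u + Z * v) →
  ∀ h ≤ H, ∀ q ∈ supp A (h + 1),
    ev (FF (fun s => U - a s * Z) (fun s => Y - b s * Z) h) q = 0 → q ∈ J3 U Y Z a b h

/-- The polynomial ring `k[x, y, z]`, written as `k[z][y][x]`. -/
abbrev P3 (k : Type) [Field k] := Polynomial (Polynomial (Polynomial k))

noncomputable def px (k : Type) [Field k] : P3 k := Polynomial.X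
noncomputable def py (k : Type) [Field k] : P3 k := Polynomial.C Polynomial.X
noncomputable def pz (k : Type) [Field k] : P3 k := Polynomial.C (Polynomial.C Polynomial.X)
/-- Scalars. -/
noncomputable def sc {k : Type} [Field k] (a : k) : P3 k :=
  Polynomial.C (Polynomial.C (Polynomial.C a))

/-- Regularity facts in `k[z][y][x]` for `U = x²`, `Y = y²`, `Z = z²`. -/
def RingStmt : Prop := ∀ (k : Type) [Field k] (a b : k),
  (∀ x : P3 k, pz k ^ 2 * x = 0 → x = 0) ∧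
  (∀ x : P3 k, (px k ^ 2 - sc a * pz k ^ 2) * x = 0 → x = 0) ∧
  (∀ x : P3 k, (px k ^ 2 - sc a * pz k ^ 2) ∣ (py k ^ 2 - sc b * pz k ^ 2) * x →
    (px k ^ 2 - sc a * pz k ^ 2) ∣ x) ∧
  (∀ x : P3 k, (px k ^ 2 - sc a * pz k ^ 2) ∣ pz k ^ 2 * x →
    (px k ^ 2 - sc a * pz k ^ 2) ∣ x) ∧
  (∀ x : P3 k, (∃ u v, py k ^ 2 * x = (px k ^ 2 - sc a * pz k ^ 2) * u + pz k ^ 2 * v) →
    ∃ u v, x = (px k ^ 2 - sc a * pz k ^ 2) * u + pz k ^ 2 * v)

/-- Transfer from `ℕ` variables to `Fin (h+1)` variables: the Rees ideal is generated in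
`T`-degree at most `3`. -/
def FinStmt : Prop := ∀ (A : Type) [CommRing A] (U Y Z : A) (a b : ℕ → A) (h : ℕ),
  (∀ p ∈ J3 U Y Z a b h, ev (FF (fun s => U - a s * Z) (fun s => Y - b s * Z) h) p = 0) →
  (∀ q ∈ supp A (h + 1),
    ev (FF (fun s => U - a s * Z) (fun s => Y - b s * Z) h) q = 0 → q ∈ J3 U Y Z a b h) →
  ∀ q : MvPolynomial (Fin (h + 1)) A,
    MvPolynomial.aeval (fun i : Fin (h + 1) => Polynomial.C (FF (fun s => U - a s * Z)
      (fun s => Y - b s * Z) h i) * (Polynomial.X : Polynomial A)) q = 0 →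
    q ∈ Ideal.span {p : MvPolynomial (Fin (h + 1)) A |
      MvPolynomial.aeval (fun i : Fin (h + 1) => Polynomial.C (FF (fun s => U - a s * Z)
        (fun s => Y - b s * Z) h i) * (Polynomial.X : Polynomial A)) p = 0 ∧
      ∃ n ≤ 3, p.IsHomogeneous n}

end Pool.Agent.R689.GM
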